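import Pool.Agent.THF.E.GX
import Pool.Agent.THF.K.Unif
import Pool.Agent.THF.K.OmK

/-!
# THF/E-Fam: the family `La x = (t - z0)^(2m) Lam_x(t)` with polynomial bounds

PLAN.  `La x t = (t - z0)^m * G x t` for `x` no square, `La x = G x` for `x` a square.  `y0 = z0.im`.  `η > 0` with `4 η + η² < ρ²`, `η ≤ 1`; then `ball (3 + i y0) (2 + η) ⊆ {1 < Re t ∨ |Im t - y0| < ρ}`: a point with `Re t ≤ 1` has `(3 - Re t)² ≥ 4`, so `|Im t - y0|² < (2 + η)² - 4`.  `r > 0` with `r ≤ ρ`, `r ≤ 1/2`,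
`(2 + r)² + r² ≤ (2 + η/2)²`: then `{1 - r ≤ Re t ≤ 3, |Im t - y0| ≤ r} ⊆ closedBall (3 + i y0) (2 + η/2)`.
`diff`: the region `{1 - r < Re t, |Im t - y0| < r}` is contained in the one of `G`.  `eq`: `RX = LX` for `Re t > 3/2` (`RX_spec`).  `bd`: compact `Q`: for squares `La x` is one fixed continuous function (`G x = G y`), bounded on `Q`, and `oddN ≥ 1`.  For `x` no square: points with `Re t ≤ 3`: `unif` with `s1 = 3 + i y0`, `R = 2 + η`,
`R' = 2 + η/2` (`G x t = (t - z0)^m LX x t` for `Re t > 3/2`); points with `3 ≤ Re t ≤ X`: `LX_up`, `gam1_up` (THF/K/LXb); `|(t - z0)^(2m)|` is bounded on `Q`.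
-/

namespace Pool.Agent.THF

open NumberField IsDedekindDomain Pool.Agent.HWR Pool.Agent.QD Pool.Agent.QD.In Pool.Agent.LD
  Pool.Agent.MD

private theorem fam_nsq (y0 : ℝ) (t : ℂ) :
    ‖t - (3 + (y0 : ℂ) * Complex.I)‖ ^ 2 = (t.re - 3) ^ 2 + (t.im - y0) ^ 2 := by
  rw [Complex.sq_norm, Complex.normSq_apply]
  simp
  ring

private theorem fam_ball {y0 ρ η : ℝ} (hρ : 0 < ρ) (hη0 : 0 < η) (hη : 4 * η + η ^ 2 < ρ ^ 2)
    {t : ℂ} (ht : t ∈ Metric.ball (3 + (y0 : ℂ) * Complex.I) (2 + η)) :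
    1 < t.re ∨ |t.im - y0| < ρ := by
  rw [Metric.mem_ball, Complex.dist_eq] at ht
  by_contra hcon
  push Not at hcon
  obtain ⟨h1, h2⟩ := hcon
  have h3 := fam_nsq y0 t
  have h4 : ‖t - (3 + (y0 : ℂ) * Complex.I)‖ ^ 2 < (2 + η) ^ 2 := by
    have := norm_nonneg (t - (3 + (y0 : ℂ) * Complex.I))
    nlinarith
  have h5 : ρ ^ 2 ≤ (t.im - y0) ^ 2 := by
    rw [← sq_abs (t.im - y0)]
    nlinarith
  nlinarith

private theorem fam_cball {y0 r η : ℝ} (hr : 0 < r) (hη0 : 0 < η)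
    (hrη : (2 + r) ^ 2 + r ^ 2 ≤ (2 + η / 2) ^ 2) {t : ℂ} (h1 : 1 - r < t.re) (h2 : t.re ≤ 3)
    (h3 : |t.im - y0| < r) :
    t ∈ Metric.closedBall (3 + (y0 : ℂ) * Complex.I) (2 + η / 2) := by
  rw [Metric.mem_closedBall, Complex.dist_eq]
  have h4 := fam_nsq y0 t
  have h5 : (t.im - y0) ^ 2 ≤ r ^ 2 := by
    rw [← sq_abs (t.im - y0)]
    have := abs_nonneg (t.im - y0)
    nlinarith
  have h6 : (t.re - 3) ^ 2 ≤ (2 + r) ^ 2 := by nlinarith
  have h7 : ‖t - (3 + (y0 : ℂ) * Complex.I)‖ ^ 2 ≤ (2 + η / 2) ^ 2 := by linarith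
  exact (abs_le_of_sq_le_sq' h7 (by positivity)).2

private theorem fam_pow {N : ℕ} (hN : 0 < N) {A B : ℝ} (hAB : A ≤ B) :
    (N : ℝ) ^ A ≤ (N : ℝ) ^ B :=
  Real.rpow_le_rpow_of_exponent_le (by exact_mod_cast hN) hAB

theorem exists_fam {K : Type} [Field K] [NumberField K] {T : Finset ℕ} (hTp : ∀ p ∈ T, p.Prime)
    (hT : ∀ p : ℕ, p.Prime → p < 101 → p ∈ T) (D : LocData T) {a : ℕ → ℝ}
    (ha : ∀ q : ℕ, |a q| ≤ 2 * Real.sqrt q) {T1 : Finset ℕ}
    {S V : Finset (HeightOneSpectrum (𝓞 K))} (hS : Nic T1 S)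
    (hST : ∀ v, ¬ Away K T v → v ∈ S) (hV : V ⊆ S) (hVT : ∀ v ∈ V, Away K T v)
    (hne : V.Nonempty) (H : HWN D a V) (H4 : HWN4 D a V)
    (hR : ∀ (F : Type) [Field F] [NumberField F], RH D a F) {z0 : ℂ} (hz : z0.re = 1) {m : ℕ}
    (hm : 1 ≤ m) {ρ : ℝ} {G : Kˣ → ℂ → ℂ} {L0 : ℂ} (hρ : 0 < ρ)
    (hGd : ∀ x, DifferentiableOn ℂ (G x) {t : ℂ | 1 < t.re ∨ |t.im - z0.im| < ρ})
    (hGe : ∀ x, ¬ IsSquare x → ∀ t : ℂ, 1 < t.re → G x t = (t - z0) ^ m * RX D a x t)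
    (hGs : ∀ x, IsSquare x → ∀ t : ℂ, 1 < t.re → G x t = (t - z0) ^ (2 * m) * RX D a x t)
    (hGc : ∀ x y, IsSquare x → IsSquare y → G x = G y) (hG0 : ∀ x, IsSquare x → G x z0 = L0) :
    ∃ (r : ℝ) (La : Kˣ → ℂ → ℂ),
      IsFam D a S (1 - r) z0.im r (fun t => (t - z0) ^ (2 * m)) La ∧
      (∀ x, ¬ IsSquare x → La x z0 = 0) ∧ ∀ x, IsSquare x → La x z0 = L0 := by
  classical
  obtain ⟨η, hη⟩ : ∃ η : ℝ, η = min 1 (ρ ^ 2 / 6) := ⟨_, rfl⟩
  have hη0 : 0 < η := by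
    rw [hη]
    exact lt_min one_pos (by positivity)
  have hη1 : η ≤ 1 := hη ▸ min_le_left _ _
  have hη2 : η ≤ ρ ^ 2 / 6 := hη ▸ min_le_right _ _
  have hη3 : 4 * η + η ^ 2 < ρ ^ 2 := by
    have : 0 < ρ ^ 2 := by positivity
    nlinarith
  obtain ⟨r, hr⟩ : ∃ r : ℝ, r = min ρ (min (1 / 2) (η * (2 / 5))) := ⟨_, rfl⟩
  have hr0 : 0 < r := by
    rw [hr]
    exact lt_min hρ (lt_min (by norm_num) (by positivity))
  have hr1 : r ≤ ρ := hr ▸ min_le_left _ _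
  have hr2 : r ≤ 1 / 2 := hr ▸ (min_le_right _ _).trans (min_le_left _ _)
  have hr3 : r ≤ η * (2 / 5) := hr ▸ (min_le_right _ _).trans (min_le_right _ _)
  have hr4 : (2 + r) ^ 2 + r ^ 2 ≤ (2 + η / 2) ^ 2 := by nlinarith
  obtain ⟨La, hLa⟩ : ∃ La : Kˣ → ℂ → ℂ, La = fun x t =>
    if IsSquare x then G x t else (t - z0) ^ m * G x t := ⟨_, rfl⟩
  have hLs : ∀ x, IsSquare x → La x = G x := by
    intro x hx
    funext t
    rw [hLa]
    exact if_pos hx
  have hLn : ∀ x, ¬ IsSquare x → La x = fun t => (t - z0) ^ m * G x t := by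
    intro x hx
    funext t
    rw [hLa]
    exact if_neg hx
  have hsub : {t : ℂ | 1 - r < t.re ∧ |t.im - z0.im| < r} ⊆
      {t : ℂ | 1 < t.re ∨ |t.im - z0.im| < ρ} := fun t ht => Or.inr (ht.2.trans_le hr1)
  have heq : ∀ x, ∀ t : ℂ, 3 / 2 < t.re → La x t = (t - z0) ^ (2 * m) * LX D a x t := by
    intro x t ht
    have h1 := (RX_spec D hTp hT ha hR x).2 t ht
    have h2 : 1 < t.re := by linarith
    by_cases hx : IsSquare x
    · rw [hLs x hx, hGs x hx t h2, h1]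
    · rw [hLn x hx]
      show (t - z0) ^ m * G x t = _
      rw [hGe x hx t h2, h1]
      ring
  have h2S : ∀ v : HeightOneSpectrum (𝓞 K), (2 : 𝓞 K) ∈ v.asIdeal → v ∈ S := fun v hv =>
    hST v fun h => h 2 (hT 2 Nat.prime_two (by norm_num)) (by exact_mod_cast hv)
  obtain ⟨s1, hs1⟩ : ∃ s1 : ℂ, s1 = 3 + (z0.im : ℂ) * Complex.I := ⟨_, rfl⟩
  have hs1r : s1.re = 3 := by
    rw [hs1]
    simp
  obtain ⟨A1, C1, hA1, hC1, hb1⟩ := unif hTp hT D ha hS hST hV hVT hne H H4 (s1 := s1)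
    (z0 := z0) m (R := 2 + η) (R' := 2 + η / 2) hs1r.ge (by linarith) (by linarith) G
    (fun x _ => (hGd x).mono fun t ht => fam_ball hρ hη0 hη3 (hs1 ▸ ht))
    (fun x hx t _ ht => by
      rw [hGe x hx t (by linarith), (RX_spec D hTp hT ha hR x).2 t ht])
  refine ⟨r, La, ⟨hr0, by linarith, ?_, ?_, fun x t _ _ ht => heq x t ht, ?_⟩, ?_, ?_⟩
  · exact (Differentiable.pow (by fun_prop) _).differentiableOn
  · intro x
    by_cases hx : IsSquare x
    · rw [hLs x hx]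
      exact (hGd x).mono hsub
    · rw [hLn x hx]
      exact (Differentiable.differentiableOn (by fun_prop)).mul ((hGd x).mono hsub)
  · intro Q hQ hQs
    -- the square class
    obtain ⟨C0, hC0⟩ := hQ.exists_bound_of_continuousOn
      ((hGd 1).continuousOn.mono (hQs.trans hsub))
    -- the powers
    obtain ⟨B1, hB1⟩ := hQ.exists_bound_of_continuousOn (f := fun t : ℂ => (t - z0) ^ m)
      (by fun_prop)
    obtain ⟨B2, hB2⟩ := hQ.exists_bound_of_continuousOn (f := fun t : ℂ => (t - z0) ^ (2 * m))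
      (by fun_prop)
    -- the real part
    obtain ⟨X, hX⟩ := hQ.exists_bound_of_continuousOn (f := fun t : ℂ => (t.re : ℂ))
      (by fun_prop)
    obtain ⟨A2, C2, hA2, hC2, hb2⟩ := LX_up D S h2S hS hST hT ha (x1 := 3) (x2 := X)
      (by norm_num)
    obtain ⟨C3, hC3, hb3⟩ := gam1_up (x1 := 3) (x2 := X) (by norm_num)
    refine ⟨A1 + A2, |C0| + |B1| * C1 + |B2| * (C2 * C3 ^ (2 * Module.finrank ℚ K)),
      by positivity, by positivity, ?_⟩
    intro x t ht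
    have hN := oddN_pos S x
    have hN1 : (1 : ℝ) ≤ (oddN S x : ℝ) ^ (A1 + A2) := by
      have := fam_pow hN (show (0 : ℝ) ≤ A1 + A2 by positivity)
      rwa [Real.rpow_zero] at this
    have hN2 : (oddN S x : ℝ) ^ A1 ≤ (oddN S x : ℝ) ^ (A1 + A2) := fam_pow hN (by linarith)
    have hN3 : (oddN S x : ℝ) ^ A2 ≤ (oddN S x : ℝ) ^ (A1 + A2) := fam_pow hN (by linarith)
    obtain ⟨N, hNd⟩ : ∃ N : ℝ, N = (oddN S x : ℝ) ^ (A1 + A2) := ⟨_, rfl⟩
    rw [← hNd] at hN1 hN2 hN3 ⊢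
    have hN0 : 0 ≤ N := by linarith
    have e1 : 0 ≤ |C0| * N := by positivity
    have e2 : 0 ≤ |B1| * C1 * N := by positivity
    have e3 : 0 ≤ |B2| * (C2 * C3 ^ (2 * Module.finrank ℚ K)) * N := by positivity
    have e4 : (|C0| + |B1| * C1 + |B2| * (C2 * C3 ^ (2 * Module.finrank ℚ K))) * N =
      |C0| * N + |B1| * C1 * N + |B2| * (C2 * C3 ^ (2 * Module.finrank ℚ K)) * N := by ring
    rw [e4]
    by_cases hx : IsSquare x
    · have h1 : ‖La x t‖ ≤ |C0| * N := by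
        rw [hLs x hx, hGc x 1 hx IsSquare.one]
        calc ‖G 1 t‖ ≤ C0 := hC0 t ht
          _ ≤ |C0| := le_abs_self _
          _ = |C0| * 1 := (mul_one _).symm
          _ ≤ |C0| * N := mul_le_mul_of_nonneg_left hN1 (abs_nonneg _)
      linarith
    · by_cases h3 : t.re ≤ 3
      · have h1 : ‖La x t‖ ≤ |B1| * C1 * N := by
          rw [hLn x hx]
          show ‖(t - z0) ^ m * G x t‖ ≤ _
          rw [norm_mul, mul_assoc]
          refine mul_le_mul ((hB1 t ht).trans (le_abs_self _)) ?_ (norm_nonneg _)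
            (abs_nonneg _)
          refine (hb1 x hx t ?_).trans (mul_le_mul_of_nonneg_left hN2 hC1)
          rw [hs1]
          exact fam_cball hr0 hη0 hr4 (hQs ht).1 h3 (hQs ht).2
        linarith
      · push Not at h3
        have h1 : ‖La x t‖ ≤ |B2| * (C2 * C3 ^ (2 * Module.finrank ℚ K)) * N := by
          rw [heq x t (by linarith), norm_mul, mul_assoc]
          refine mul_le_mul ((hB2 t ht).trans (le_abs_self _)) ?_ (norm_nonneg _)
            (abs_nonneg _)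
          have hXt : t.re ≤ X := by
            have h4 := hX t ht
            rw [Complex.norm_real, Real.norm_eq_abs] at h4
            exact (le_abs_self _).trans h4
          calc ‖LX D a x t‖ ≤ C2 * (oddN S x : ℝ) ^ A2 * ‖gam1 t‖ ^ (2 * Module.finrank ℚ K) :=
                hb2 x t h3.le hXt
            _ ≤ C2 * N * C3 ^ (2 * Module.finrank ℚ K) := by
                refine mul_le_mul (mul_le_mul_of_nonneg_left hN3 hC2)
                  (pow_le_pow_left₀ (norm_nonneg _) (hb3 t h3.le hXt) _) (by positivity)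
                  (by positivity)
            _ = C2 * C3 ^ (2 * Module.finrank ℚ K) * N := by ring
        linarith
  · intro x hx
    rw [hLn x hx]
    show (z0 - z0) ^ m * G x z0 = 0
    rw [sub_self, zero_pow (by omega), zero_mul]
  · intro x hx
    rw [hLs x hx]
    exact hG0 x hx

end Pool.Agent.THF
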