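import Pool.Agent.THF.E.Max
import Pool.Agent.THF.E.Fam
import Pool.Agent.THF.T2.Two
import Pool.Agent.THF.A.AT
import Pool.Agent.THF.K.IsKn
import Pool.Agent.LD.I.Sys0
import Pool.Agent.THF.K.St1
import Pool.Agent.QD.F.Contr
import Pool.Agent.QD.F.Trace
import Pool.Agent.QD.F.MkPole

/-!
# THF/E-Fin: no poles (paper section 8)

PLAN.  Suppose `LogO (RF F0) z0 o0`, `o0 < 0`.  `exists_max`: `K`, `m`; `hG K`: `V`; `two` for `K`, `V`: `T1, S, c1, c2, v0, Phi`; `exists_GX`: `ρ, G, L0`; `exists_fam`: `r, La`; `exists_Om` (THF/K/OmK): `T'` with `IsOm`, `T'.e b c t = La x t * UX x t` with `IsSquare x ↔ Sq b c`.  At `z0`: if `¬ Sq b c` then `T'.e b c z0 = 0`;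
`T'.e (2 • f) 1 z0 = L0 * UX S 1 z0 ≠ 0`, the same number for all `f` (`UX_sq`, `UX_ne`; `Sq (2 • f) 1` by definition, `R (2 • f) 1`: `R_two`).  `isSys0` (LD/I/Sys0), `isKnN` (THF/K/IsKn).  `thmAT` with `s0 = z0` (`z0 ∈ T'.Om`: `1 - r < 1`, `0 < r`), `Kn = KNc S V`, `r1 = √q (1 + q^(w - 3/2))`, `r2 = 1 + q^(w-1/2)`: `β`.
From here on as in the proof of `descent` (QD/F/Descent.lean, the part after `theorem_AT`; its private lemma `ext_real` can be copied): `contr` (QD/F/Contr).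
-/

namespace Pool.Agent.THF

open NumberField IsDedekindDomain Pool.Agent.HWR Pool.Agent.QD Pool.Agent.QD.In Pool.Agent.LD
  Pool.Agent.MD

private theorem ext_real {φ ψ : ℂ → ℂ} (hφ : Continuous φ) (hψ : Continuous ψ) {β : ℝ}
    (h : ∀ s : ℂ, s.re < β → s.im ≠ 0 → φ s = ψ s) : ∀ s : ℂ, s.re < β → φ s = ψ s := by
  intro s hs
  by_cases him : s.im = 0
  · have h1 : Continuous fun x : ℝ => φ (s + (x : ℂ) * Complex.I) := by fun_prop
    have h2 : Continuous fun x : ℝ => ψ (s + (x : ℂ) * Complex.I) := by fun_prop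
    have h3 := Continuous.ext_on (dense_compl_singleton (0 : ℝ)) h1 h2 fun x hx => by
      have hx' : x ≠ 0 := hx
      refine h _ ?_ ?_
      · simpa using hs
      · simpa [him] using hx'
    have h4 := congrFun h3 0
    simpa using h4
  · exact h s hs him

theorem no_pole {T : Finset ℕ} (hTp : ∀ p ∈ T, p.Prime)
    (hT : ∀ p : ℕ, p.Prime → p < 101 → p ∈ T) (D : LocData T) {a : ℕ → ℝ}
    (ha : ∀ q : ℕ, |a q| ≤ 2 * Real.sqrt q) (hfr : FrobRel T a) (hG : Glob D a)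
    (hM : ∀ (F : Type) [Field F] [NumberField F], ∃ N : ℕ, 0 < N ∧ MERn D a F N) {z0 : ℂ}
    (hz : z0.re = 1) (F : Type) [Field F] [NumberField F] {o : ℝ}
    (h0 : LogO (RF D a F) z0 o) : 0 ≤ o := by
  by_contra hneg
  obtain ⟨K, _, _, m, hm1, hmK, hmax⟩ :=
    exists_max hTp hT D ha hfr hG hM hz F h0 (not_le.1 hneg)
  obtain ⟨V, hVn, hVT, H, H4⟩ := hG K
  have ha2 : SqRel K T a := sqRel_of_frob K T a hfr
  obtain ⟨T1, S, c1, c2, v0, Phi, hS, hST, hVS, h1, h2, hv0, hM1, hM2, hMne, hGne, hGG⟩ :=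
    two K T hTp hT D a ha ha2 V hVT
  have hR : ∀ (F : Type) [Field F] [NumberField F], RH D a F :=
    fun F _ _ => step1 hTp hT D ha hfr hG F
  obtain ⟨ρ, G, L0, hρ, hL0, hGd, hGe, hGs, hGc, hG0⟩ :=
    exists_GX hTp hT D ha hfr hG hM K hz m hmK hmax
  obtain ⟨r, La, hFam, hLa0, hLaS⟩ :=
    exists_fam hTp hT D ha hS hST hVS hVT hVn H H4 hR hz hm1 hρ hGd hGe hGs hGc hG0
  obtain ⟨T', hx0, hy0, hr', hom, hOm, hT'⟩ := exists_Om D a hS hST hT ha ha2 hFam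
  have hsys := isSys0 D hS hST hT ha ha2
  have hkn := isKnN D hS hST hT ha ha2 hVS hVn H
  have hrpos : 0 < r := hFam.hr
  have hz0 : z0 ∈ T'.Om := by
    refine ⟨?_, ?_⟩
    · rw [hx0, hz]
      linarith
    · rw [hy0, hr', sub_self, abs_zero]
      exact hrpos
  have hU : UX D a S 1 z0 ≠ 0 := UX_ne D a S hT ha 1 (by rw [hz]; norm_num)
  have hL1 : L0 * UX D a S 1 z0 ≠ 0 := mul_ne_zero hL0 hU
  have e0 : ∀ b c', (sys S D a).R b c' → ¬ (sys S D a).Sq b c' → T'.e b c' z0 = 0 := by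
    intro b c' hb hsq
    obtain ⟨x, hx, he⟩ := hT' b c' hb
    rw [he, hLa0 x (fun h => hsq (hx.1 h)), zero_mul]
  have e1 : ∀ f : (sys S D a).J, T'.e (2 • f) 1 z0 = L0 * UX D a S 1 z0 := by
    intro f
    obtain ⟨x, hx, he⟩ := hT' (2 • f) 1 (hsys.R_two f)
    have hsq : (sys S D a).Sq (2 • f) 1 := by
      refine ⟨rfl, fun v => ?_⟩
      exact ⟨f v, by simp [two_mul]⟩
    have hxs : IsSquare x := hx.2 hsq
    rw [he, hLaS x hxs, UX_sq D a S hxs (⟨1, by simp⟩ : IsSquare (1 : Kˣ))]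
  have hq := nrm_away K T hT v0 hv0
  have hq0 : (nrm v0 : ℂ) ≠ 0 := by
    have : nrm v0 ≠ 0 := by omega
    exact_mod_cast this
  have hd1 : Differentiable ℂ (fun w : ℂ => (Real.sqrt (nrm v0) : ℂ) *
      (1 + (nrm v0 : ℂ) ^ (w - 3 / 2))) := by
    intro w
    refine DifferentiableAt.const_mul (DifferentiableAt.const_add _ ?_) _
    exact DifferentiableAt.const_cpow (by fun_prop) (Or.inl hq0)
  have hd2 : Differentiable ℂ (fun w : ℂ => 1 + (nrm v0 : ℂ) ^ (w - 1 / 2)) := by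
    intro w
    refine DifferentiableAt.const_add _ ?_
    exact DifferentiableAt.const_cpow (by fun_prop) (Or.inl hq0)
  obtain ⟨β, hβ⟩ := thmAT hsys hkn hOm hz0 hL1 e0 e1 c1 c2 h1 h2 _ _ Phi hd1 hd2 hM1 hM2 hMne
  obtain ⟨b0, hb0⟩ := hGne
  refine contr (q := nrm v0) hq (ha (nrm v0)) hz (β := min β (min b0 (1 / 2))) ?_
  have cp : ∀ {f : ℂ → ℂ}, Continuous f → Continuous fun s => (nrm v0 : ℂ) ^ (f s) :=
    fun hf => hf.const_cpow (Or.inl hq0)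
  have k1 : Continuous fun s : ℂ => (nrm v0 : ℂ) ^ (-s) := cp (by fun_prop)
  have k2 : Continuous fun s : ℂ => (nrm v0 : ℂ) ^ (1 - 2 * s) := cp (by fun_prop)
  have k3 : Continuous fun s : ℂ => (nrm v0 : ℂ) ^ (z0 + s - 3 / 2 - 3 / 2) := cp (by fun_prop)
  have k4 : Continuous fun s : ℂ => (nrm v0 : ℂ) ^ (z0 - s + 1 / 2 - 1 / 2) := cp (by fun_prop)
  have k5 : Continuous fun s : ℂ => (nrm v0 : ℂ) ^ (1 - s) := cp (by fun_prop)
  have k6 : Continuous fun s : ℂ => (nrm v0 : ℂ) ^ (3 - 2 * s) := cp (by fun_prop)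
  have k7 : Continuous fun s : ℂ => (nrm v0 : ℂ) ^ (z0 + s - 3 / 2 - 1 / 2) := cp (by fun_prop)
  have k8 : Continuous fun s : ℂ => (nrm v0 : ℂ) ^ (z0 - s + 1 / 2 - 3 / 2) := cp (by fun_prop)
  refine ext_real (by fun_prop) (by fun_prop) ?_
  intro s hs him
  have hs1 : s.re < β := lt_of_lt_of_le hs (min_le_left _ _)
  have hs3 : s.re < b0 := lt_of_lt_of_le hs ((min_le_right _ _).trans (min_le_left _ _))
  have hs2 : s.re < 1 / 2 := lt_of_lt_of_le hs ((min_le_right _ _).trans (min_le_right _ _))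
  have e1 := hβ s hs1
  have e2 := hGG s hs2
  have e3 := hb0 s hs3 him
  apply mul_left_cancel₀ e3
  linear_combination (1 + (a (nrm v0) : ℂ) * (nrm v0 : ℂ) ^ (1 - s) +
    (nrm v0 : ℂ) ^ (3 - 2 * s)) * e1 -
    ((Real.sqrt (nrm v0) : ℂ) * (1 + (nrm v0 : ℂ) ^ (z0 + s - 3 / 2 - 3 / 2))) *
      (1 + (nrm v0 : ℂ) ^ (z0 - s + 1 / 2 - 1 / 2)) * e2

end Pool.Agent.THF
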