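import Pool.Agent.THF.O.Fin2
import Pool.Agent.THF.R.Hol

/-!
# THF/E-GX: the functions `(t - z0)^m Lam_x(t)` near `z0`

PLAN.  `finO`: `ρ`.  `merk` (THF/R/Mer) with `intO` for every number field: `MERk`.  For a nonsquare `x`: `hol_strip` for `L = (qf h).L` (`RX x = RF L` by definition), `hne` from `finO`, `h0` from `hmax`: `G x`.  For squares `x`: `hol_strip` for `K` itself with the same `m` (`finO` for a square `x`: `LogO (RF ^ 2) z (2 o)` (`logO_pow`), `0 ≤ 2 o`):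
`G0` with `G0 z0 ≠ 0` (as `o = -m` at `z0`: `hm`, last part of `hol_strip`), and `G x = G0 ^ 2`, `(t - z0)^m RF` squared is `(t - z0)^(2m) RX x`.
-/

namespace Pool.Agent.THF

open NumberField IsDedekindDomain Pool.Agent.HWR Pool.Agent.QD Pool.Agent.QD.In Pool.Agent.LD
  Pool.Agent.MD

theorem exists_GX {T : Finset ℕ} (hTp : ∀ p ∈ T, p.Prime)
    (hT : ∀ p : ℕ, p.Prime → p < 101 → p ∈ T) (D : LocData T) {a : ℕ → ℝ}
    (ha : ∀ q : ℕ, |a q| ≤ 2 * Real.sqrt q) (hfr : FrobRel T a) (hG : Glob D a)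
    (hM : ∀ (F : Type) [Field F] [NumberField F], ∃ N : ℕ, 0 < N ∧ MERn D a F N)
    (K : Type) [Field K] [NumberField K] {z0 : ℂ} (hz : z0.re = 1) (m : ℕ)
    (hm : LogO (RF D a K) z0 (-(m : ℝ)))
    (hmax : ∀ (F : Type) [Field F] [NumberField F] (o : ℝ), LogO (RF D a F) z0 o →
      -(m : ℝ) ≤ o) :
    ∃ (ρ : ℝ) (G : Kˣ → ℂ → ℂ) (L0 : ℂ), 0 < ρ ∧ L0 ≠ 0 ∧
      (∀ x, DifferentiableOn ℂ (G x) {t : ℂ | 1 < t.re ∨ |t.im - z0.im| < ρ}) ∧
      (∀ x, ¬ IsSquare x → ∀ t : ℂ, 1 < t.re → G x t = (t - z0) ^ m * RX D a x t) ∧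
      (∀ x, IsSquare x → ∀ t : ℂ, 1 < t.re → G x t = (t - z0) ^ (2 * m) * RX D a x t) ∧
      (∀ x y, IsSquare x → IsSquare y → G x = G y) ∧ ∀ x, IsSquare x → G x z0 = L0 := by
  classical
  have hR : ∀ (F : Type) [Field F] [NumberField F], RH D a F := fun F _ _ =>
    step1 hTp hT D ha hfr hG F
  have hMk : ∀ (F : Type) [Field F] [NumberField F], MERk D a F := by
    intro F _ _
    obtain ⟨N, hN, hMN⟩ := hM F
    exact merk D hTp hT ha (hR F) hN hMN fun z hz => intO hTp hT D ha hfr hG F hN hMN hz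
  obtain ⟨ρ, hρ, hfin⟩ := finO hTp hT D ha hfr hG hM K hz
  have h1 : IsSquare (1 : Kˣ) := ⟨1, (mul_one 1).symm⟩
  have hKne : ∀ (z : ℂ) (o : ℝ), z.re = 1 → z ≠ z0 → ‖z - z0‖ < ρ →
      LogO (RF D a K) z o → 0 ≤ o := by
    intro z o hz1 hz2 hz3 ho
    have h2 := hfin 1 z (((2 : ℕ) : ℝ) * o) hz1 hz2 hz3 (by
      unfold RX
      rw [dif_pos h1]
      exact logO_pow 2 ho)
    push_cast at h2
    linarith
  obtain ⟨G0, hG0d, hG0, hG0z⟩ := hol_strip D hTp hT ha (hR K) (hMk K) hz hρ hKne m (hmax K)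
  have hG00 : G0 z0 ≠ 0 := by
    intro h0
    exact lt_irrefl _ ((hG0z _ hm).1 h0)
  have hex : ∀ x : Kˣ, ∃ G : ℂ → ℂ,
      DifferentiableOn ℂ G {t : ℂ | 1 < t.re ∨ |t.im - z0.im| < ρ} ∧
      (¬ IsSquare x → ∀ t : ℂ, 1 < t.re → G t = (t - z0) ^ m * RX D a x t) ∧
      (IsSquare x → G = fun t => G0 t ^ 2) := by
    intro x
    by_cases hx : IsSquare x
    · exact ⟨fun t => G0 t ^ 2, hG0d.pow 2, fun h => absurd hx h, fun _ => rfl⟩
    · have hRX : RX D a x = RF D a (qf hx).L := by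
        unfold RX
        rw [dif_neg hx]
      obtain ⟨G, h2, h3, -⟩ := hol_strip D hTp hT ha (hR (qf hx).L) (hMk (qf hx).L) hz hρ
        (fun z o hz1 hz2 hz3 ho => hfin x z o hz1 hz2 hz3 (by rw [hRX]; exact ho)) m
        (hmax (qf hx).L)
      exact ⟨G, h2, fun _ t ht => by rw [h3 t ht, hRX], fun h => absurd h hx⟩
  choose G hGd hGn hGs using hex
  refine ⟨ρ, G, G0 z0 ^ 2, hρ, pow_ne_zero 2 hG00, hGd, hGn, ?_, ?_, ?_⟩
  · intro x hx t ht
    have hRX : RX D a x t = RF D a K t ^ 2 := by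
      unfold RX
      rw [dif_pos hx]
    rw [hGs x hx, hRX]
    change G0 t ^ 2 = _
    rw [hG0 t ht, mul_pow, ← pow_mul, mul_comm m 2]
  · intro x y hx hy
    rw [hGs x hx, hGs y hy]
  · intro x hx
    rw [hGs x hx]

end Pool.Agent.THF
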