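import Pool.Agent.THF.O.Int

/-!
# THF/E-Max: a field with maximal pole order (paper section 8)

By `lbO` and `intO` the orders of the functions `RF F` at `z0` are integers and at least `-6`; the largest `m ≤ 6` such that some
number field has the order `-m` is taken.
-/

namespace Pool.Agent.THF

open NumberField IsDedekindDomain Pool.Agent.HWR Pool.Agent.QD Pool.Agent.QD.In Pool.Agent.LD
  Pool.Agent.MD

theorem exists_max {T : Finset ℕ} (hTp : ∀ p ∈ T, p.Prime)
    (hT : ∀ p : ℕ, p.Prime → p < 101 → p ∈ T) (D : LocData T) {a : ℕ → ℝ}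
    (ha : ∀ q : ℕ, |a q| ≤ 2 * Real.sqrt q) (hfr : FrobRel T a) (hG : Glob D a)
    (hM : ∀ (F : Type) [Field F] [NumberField F], ∃ N : ℕ, 0 < N ∧ MERn D a F N) {z0 : ℂ}
    (hz : z0.re = 1) (F0 : Type) [Field F0] [NumberField F0] {o0 : ℝ}
    (h0 : LogO (RF D a F0) z0 o0) (ho : o0 < 0) :
    ∃ (K : Type) (_ : Field K) (_ : NumberField K) (m : ℕ), 1 ≤ m ∧
      LogO (RF D a K) z0 (-(m : ℝ)) ∧ ∀ (F : Type) [Field F] [NumberField F] (o : ℝ),
        LogO (RF D a F) z0 o → -(m : ℝ) ≤ o := by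
  classical
  have hint : ∀ (F : Type) [Field F] [NumberField F], ∃ k : ℤ, LogO (RF D a F) z0 k := by
    intro F _ _
    obtain ⟨N, hN, hMN⟩ := hM F
    exact intO hTp hT D ha hfr hG F hN hMN hz
  let P : ℕ → Prop := fun m => ∃ (K : Type) (_ : Field K) (_ : NumberField K),
    LogO (RF D a K) z0 (-(m : ℝ))
  have hP6 : ∀ m : ℕ, P m → m ≤ 6 := by
    rintro m ⟨K, _, _, h⟩
    have h1 := lbO hTp hT D ha hfr hG K hz h
    have h2 : (m : ℝ) ≤ 6 := by linarith
    exact_mod_cast h2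
  have hneg : ∀ (F : Type) [Field F] [NumberField F] (k : ℤ), LogO (RF D a F) z0 k → k < 0 →
      P (-k).toNat := by
    intro F _ _ k h hk
    refine ⟨F, inferInstance, inferInstance, ?_⟩
    have h1 : (((-k).toNat : ℤ) : ℝ) = -(k : ℝ) := by
      rw [Int.toNat_of_nonneg (by omega)]
      push_cast
      rfl
    have h2 : -(((-k).toNat : ℕ) : ℝ) = (k : ℝ) := by
      have h3 : (((-k).toNat : ℕ) : ℝ) = (((-k).toNat : ℤ) : ℝ) := by push_cast; rfl
      rw [h3, h1, neg_neg]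
    rw [h2]
    exact h
  obtain ⟨k0, hk0⟩ := hint F0
  have hk0o : o0 = k0 := logO_unique h0 hk0
  have hk0n : k0 < 0 := by
    rw [hk0o] at ho
    exact_mod_cast ho
  have hP0 : P (-k0).toNat := hneg F0 k0 hk0 hk0n
  have hle : (-k0).toNat ≤ Nat.findGreatest P 6 := Nat.le_findGreatest (hP6 _ hP0) hP0
  have hspec : P (Nat.findGreatest P 6) := Nat.findGreatest_spec (hP6 _ hP0) hP0
  obtain ⟨K, i1, i2, hK⟩ := hspec
  refine ⟨K, i1, i2, Nat.findGreatest P 6, by omega, hK, fun F _ _ o hFo => ?_⟩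
  obtain ⟨k, hk⟩ := hint F
  have hok : o = k := logO_unique hFo hk
  rw [hok]
  by_contra hcon
  push Not at hcon
  have h1 : k < -((Nat.findGreatest P 6 : ℕ) : ℤ) := by
    have h2 : (k : ℝ) < ((-((Nat.findGreatest P 6 : ℕ) : ℤ) : ℤ) : ℝ) := by
      push_cast
      exact hcon
    exact_mod_cast h2
  have hk' : P (-k).toNat := hneg F k hk (by omega)
  have h3 : (-k).toNat ≤ Nat.findGreatest P 6 := Nat.le_findGreatest (hP6 _ hk') hk'
  omega

end Pool.Agent.THF
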